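import Pool.Agent.H34.TAM.Stmts

/-! # Row LSU of the board tam (helper12): chain rule for linear substitutions -/

set_option autoImplicit false

noncomputable section

namespace Pool.TAM

open Pool.CGR Pool.CGS

namespace LSU

variable {m : ℕ} {B : Type} [Ring B] [Algebra ℂ B]

/-- The linear extension of `g` to polynomials. -/
def lc (g : List (Fin m) → B) : (List (Fin m) →₀ ℂ) →ₗ[ℂ] B := Finsupp.linearCombination ℂ g

theorem lc_apply (g : List (Fin m) → B) (P : List (Fin m) →₀ ℂ) :
    (P.sum fun W r => r • g W) = lc g P := (Finsupp.linearCombination_apply ℂ P).symm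

theorem lc_single (g : List (Fin m) → B) (w : List (Fin m)) : lc g (Finsupp.single w 1) = g w := by
  rw [← lc_apply, Finsupp.sum_single_index (by rw [zero_smul]), one_smul]

theorem lc_map (g : List (Fin m) → B) (f : List (Fin m) → List (Fin m)) (P : List (Fin m) →₀ ℂ) :
    lc g (P.mapDomain f) = lc (fun W => g (f W)) P :=
  Finsupp.linearCombination_mapDomain ℂ f P

theorem lc_mul (g : List (Fin m) → B) (b : B) (P : List (Fin m) →₀ ℂ) :
    lc (fun W => b * g W) P = b * lc g P := by
  rw [← lc_apply, ← lc_apply, Finsupp.sum, Finsupp.sum, Finset.mul_sum]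
  exact Finset.sum_congr rfl fun W _ => (mul_smul_comm _ _ _).symm

theorem lc_add (g h : List (Fin m) → B) (P : List (Fin m) →₀ ℂ) :
    lc (fun W => g W + h W) P = lc g P + lc h P := by
  rw [← lc_apply, ← lc_apply, ← lc_apply, Finsupp.sum, Finsupp.sum, Finsupp.sum,
    ← Finset.sum_add_distrib]
  exact Finset.sum_congr rfl fun W _ => smul_add _ _ _

theorem lc_ite (c : Prop) [Decidable c] (g : List (Fin m) → B) (P : List (Fin m) →₀ ℂ) :
    lc (fun W => if c then g W else 0) P = if c then lc g P else 0 := by
  split_ifs
  · rfl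
  · rw [← lc_apply, Finsupp.sum]
    exact Finset.sum_eq_zero fun W _ => smul_zero _

theorem lc_cons (g : List (Fin m) → B) (T : Matrix (Fin m) (Fin m) ℂ) (j : Fin m)
    (w : List (Fin m)) :
    lc g (sl T (j :: w)) = ∑ l, T j l • lc (fun W => g (l :: W)) (sl T w) := by
  rw [sl, map_sum]
  exact Finset.sum_congr rfl fun l _ => by rw [map_smul, lc_map]

end LSU

open LSU in
theorem lsu_thm : LSUStmt := by
  intro m B _ _ x T w
  have hev : ∀ w : List (Fin m), ev (li T x) w = lc (ev x) (sl T w) := by
    intro w
    induction w with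
    | nil => rw [sl, lc_single]; rfl
    | cons j w ih =>
      rw [lc_cons]
      have h1 : ev (li T x) (j :: w) = li T x j * ev (li T x) w := by
        simp only [ev, List.map_cons, List.prod_cons]
      rw [h1, ih, li, Finset.sum_mul]
      refine Finset.sum_congr rfl fun l _ => ?_
      rw [smul_mul_assoc, ← lc_mul]
      refine congrArg (fun g : List (Fin m) → B => T j l • lc g (sl T w)) ?_
      funext W
      simp only [ev, List.map_cons, List.prod_cons]
  refine ⟨by rw [hev, pe, lc_apply], fun k a => ?_⟩
  rw [lc_apply]
  induction w with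
  | nil =>
    rw [sl, lc_single, (dvc_thm (Fin m) B x k a).1]
    symm
    exact Finset.sum_eq_zero fun j _ => by
      rw [(dvc_thm (Fin m) B (li T x) j a).1, smul_zero]
  | cons j w ih =>
    rw [lc_cons]
    have h1 : ∀ l : Fin m, lc (fun W => dv x k a (l :: W)) (sl T w) =
        (if l = k then a * ev (li T x) w else 0) +
          x l * ∑ i, T i k • dv (li T x) i a w := by
      intro l
      have h2 : (fun W => dv x k a (l :: W)) =
          fun W => (if l = k then a * ev x W else 0) + x l * dv x k a W := by
        funext W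
        exact (dvc_thm (Fin m) B x k a).2.1 l W
      rw [h2, lc_add, lc_ite, lc_mul, lc_mul, hev w, ih]
    have h3 : ∀ i : Fin m, T i k • dv (li T x) i a (j :: w) =
        (if j = i then T i k • (a * ev (li T x) w) else 0) +
          li T x j * (T i k • dv (li T x) i a w) := by
      intro i
      rw [(dvc_thm (Fin m) B (li T x) i a).2.1 j w, smul_add, mul_smul_comm]
      split_ifs
      · rfl
      · rw [smul_zero]
    rw [Finset.sum_congr rfl fun l _ => by rw [h1 l, smul_add],
      Finset.sum_congr rfl fun i _ => h3 i, Finset.sum_add_distrib, Finset.sum_add_distrib,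
      ← Finset.mul_sum]
    refine congrArg₂ (· + ·) ?_ ?_
    · rw [Finset.sum_ite_eq, if_pos (Finset.mem_univ _),
        Finset.sum_eq_single k (fun l _ hl => by rw [if_neg hl, smul_zero])
          (fun h => absurd (Finset.mem_univ _) h), if_pos rfl]
    · rw [show li T x j = ∑ l, T j l • x l from rfl, Finset.sum_mul]
      exact Finset.sum_congr rfl fun l _ => (smul_mul_assoc _ _ _).symm

end Pool.TAM
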